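import Pool.Agent.Helper60.MA.GDefs

/-!
# Relations between natural numbers that are definable in a transitive model (block DN, helper36)
-/

namespace Pool.Agent.Helper60.MA

open Pool.Agent.Helper96.Fc
open Pool.Agent.Helper89.FV (nat om Tab Dfb cns cns_mem mem_om nat_inj nat_mem nat_mem_om om_mem
  pair_mem_iff exists_prod sep2)

/-- put `n` in front of the assignment `v` -/
def cnsn (n : ℕ) (v : ℕ → ℕ) : ℕ → ℕ
  | 0 => n
  | i + 1 => v i

/-- relations between natural numbers that are definable in `N` -/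
inductive DN (N : Set ZFSet.{0}) : ((ℕ → ℕ) → Prop) → Prop
  | tab {R : ℕ → ℕ → ℕ → Prop} (h : Tab N R) (i j k : ℕ) : DN N fun v => R (v i) (v j) (v k)
  | neg {R : (ℕ → ℕ) → Prop} : DN N R → DN N fun v => ¬ R v
  | and {R R' : (ℕ → ℕ) → Prop} : DN N R → DN N R' → DN N fun v => R v ∧ R' v
  | ex {R : (ℕ → ℕ) → Prop} : DN N R → DN N fun v => ∃ n, R (cnsn n v)
  | congr {R R' : (ℕ → ℕ) → Prop} : DN N R → (∀ v, R v ↔ R' v) → DN N R'

/-- the assignment of natural numbers (even places) and parameters (odd places) -/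
noncomputable def mxa (v : ℕ → ℕ) (par : ℕ → ZFSet.{0}) (i : ℕ) : ZFSet.{0} :=
  if i % 2 = 0 then nat (v (i / 2)) else par (i / 2)

theorem mxa_even (v : ℕ → ℕ) (par : ℕ → ZFSet.{0}) (i : ℕ) : mxa v par (2 * i) = nat (v i) := by
  unfold mxa
  rw [if_pos (by omega)]
  congr 2
  omega

theorem mxa_odd (v : ℕ → ℕ) (par : ℕ → ZFSet.{0}) (i : ℕ) : mxa v par (2 * i + 1) = par i := by
  unfold mxa
  rw [if_neg (by omega)]
  congr 1
  omega

theorem mxa_mem {N : Set ZFSet.{0}} (hN : IsZFC N) (v : ℕ → ℕ) {par : ℕ → ZFSet.{0}}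
    (hp : ∀ i, par i ∈ N) (i : ℕ) : mxa v par i ∈ N := by
  unfold mxa
  split
  · exact nat_mem hN _
  · exact hp _

theorem cns_succ (x : ZFSet.{0}) (v : ℕ → ZFSet.{0}) (i : ℕ) : cns x v (i + 1) = v i := rfl

theorem cnsn_succ (n : ℕ) (v : ℕ → ℕ) (i : ℕ) : cnsn n v (i + 1) = v i := rfl

theorem even_or_odd_two (i : ℕ) : (∃ j, i = 2 * j) ∨ ∃ j, i = 2 * j + 1 := by
  rcases Nat.mod_two_eq_zero_or_one i with h | h
  · exact Or.inl ⟨i / 2, by omega⟩
  · exact Or.inr ⟨i / 2, by omega⟩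

/-- the relation `v i = ((v j, v k), v l)` -/
theorem dfb_triple {N : Set ZFSet.{0}} (hN : IsZFC N) (i j k l : ℕ) :
    Dfb N (fun v => v i = ZFSet.pair (ZFSet.pair (v j) (v k)) (v l)) :=
  .congr (.ex (.and (.pair hN 0 (j + 1) (k + 1)) (.pair hN (i + 1) 0 (l + 1)))) fun v hv => by
    constructor
    · rintro ⟨x, -, h1, h2⟩
      have h1 : x = ZFSet.pair (v j) (v k) := h1
      have h2 : v i = ZFSet.pair x (v l) := h2
      rw [h2, h1]
    · intro h
      exact ⟨_, (pair_mem_iff hN).2 ⟨hv j, hv k⟩, rfl, h⟩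

/-- the relation `((v j, v k), v l) ∈ v i` -/
theorem dfb_triple_mem {N : Set ZFSet.{0}} (hN : IsZFC N) (i j k l : ℕ) :
    Dfb N (fun v => ZFSet.pair (ZFSet.pair (v j) (v k)) (v l) ∈ v i) :=
  .congr (.ex (.and (dfb_triple hN 0 (j + 1) (k + 1) (l + 1)) (.mem 0 (i + 1)))) fun v hv => by
    constructor
    · rintro ⟨x, -, h1, h2⟩
      have h1 : x = ZFSet.pair (ZFSet.pair (v j) (v k)) (v l) := h1
      have h2 : x ∈ v i := h2
      rw [← h1]
      exact h2
    · intro h
      exact ⟨_, (pair_mem_iff hN).2 ⟨(pair_mem_iff hN).2 ⟨hv j, hv k⟩, hv l⟩, rfl, h⟩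

theorem tab_mem_iff {R : ℕ → ℕ → ℕ → Prop} {T : ZFSet.{0}}
    (h : ∀ z, z ∈ T ↔ ∃ k l m, R k l m ∧ z = ZFSet.pair (ZFSet.pair (nat k) (nat l)) (nat m))
    (a b c : ℕ) : ZFSet.pair (ZFSet.pair (nat a) (nat b)) (nat c) ∈ T ↔ R a b c := by
  rw [h]
  constructor
  · rintro ⟨k, l, m, h1, h2⟩
    rw [ZFSet.pair_inj, ZFSet.pair_inj] at h2
    obtain ⟨⟨h2, h3⟩, h4⟩ := h2
    rw [nat_inj h2, nat_inj h3, nat_inj h4]
    exact h1
  · intro h1
    exact ⟨a, b, c, h1, rfl⟩

/-- a definable relation between natural numbers is a definable relation between sets -/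
theorem DN.dfb {N : Set ZFSet.{0}} (hN : IsZFC N) {R : (ℕ → ℕ) → Prop} (h : DN N R) :
    ∃ par : ℕ → ZFSet.{0}, (∀ i, par i ∈ N) ∧ ∃ R' : (ℕ → ZFSet.{0}) → Prop, Dfb N R' ∧
      ∀ v, R v ↔ R' (mxa v par) := by
  induction h with
  | @tab R h i j k =>
    obtain ⟨T, hT, h1⟩ := h
    refine ⟨fun _ => T, fun _ => hT, _, dfb_triple_mem hN 1 (2 * i) (2 * j) (2 * k), fun v => ?_⟩
    rw [mxa_even, mxa_even, mxa_even]
    have : mxa v (fun _ => T) 1 = T := mxa_odd v _ 0
    rw [this, tab_mem_iff h1]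
  | neg _ ih =>
    obtain ⟨par, hp, R', hR, h1⟩ := ih
    exact ⟨par, hp, _, .neg hR, fun v => not_congr (h1 v)⟩
  | and _ _ ih1 ih2 =>
    obtain ⟨par, hp, R', hR, h1⟩ := ih1
    obtain ⟨par2, hp2, R2, hR2, h2⟩ := ih2
    refine ⟨fun i => if i % 2 = 0 then par (i / 2) else par2 (i / 2), fun i => ?_, _,
      .and (hR.ren fun i => if i % 2 = 0 then i else 2 * (i / 2 * 2) + 1)
        (hR2.ren fun i => if i % 2 = 0 then i else 2 * (i / 2 * 2 + 1) + 1), fun v => ?_⟩
    · dsimp only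
      split
      · exact hp _
      · exact hp2 _
    · refine and_congr ((h1 v).trans (iff_of_eq (congrArg R' (funext fun i => ?_))))
        ((h2 v).trans (iff_of_eq (congrArg R2 (funext fun i => ?_))))
      · rcases even_or_odd_two i with ⟨j, rfl⟩ | ⟨j, rfl⟩
        · rw [if_pos (by omega), mxa_even, mxa_even]
        · rw [if_neg (by omega), mxa_odd, mxa_odd, if_pos (by omega)]
          congr 1
          omega
      · rcases even_or_odd_two i with ⟨j, rfl⟩ | ⟨j, rfl⟩
        · rw [if_pos (by omega), mxa_even, mxa_even]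
        · rw [if_neg (by omega), mxa_odd, mxa_odd, if_neg (by omega)]
          congr 1
          omega
  | ex _ ih =>
    obtain ⟨par, hp, R', hR, h1⟩ := ih
    have hd := Dfb.exB hN 1 (hR.ren fun i => if i = 0 then 0 else if i % 2 = 0 then i - 1 else i + 3)
    refine ⟨fun i => if i = 0 then om else par (i - 1), fun i => ?_, _, hd, fun v => ?_⟩
    · dsimp only
      split
      · exact om_mem hN
      · exact hp _
    · have ho : mxa v (fun i => if i = 0 then om else par (i - 1)) 1 = om := mxa_odd v _ 0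
      have key : ∀ n, (fun i => cns (nat n) (mxa v fun i => if i = 0 then om else par (i - 1))
          (if i = 0 then 0 else if i % 2 = 0 then i - 1 else i + 3)) = mxa (cnsn n v) par := by
        intro n
        funext i
        rcases even_or_odd_two i with ⟨j, rfl⟩ | ⟨j, rfl⟩
        · cases j with
          | zero =>
            have := mxa_even (cnsn n v) par 0
            simp only [Nat.mul_zero] at this
            simp only [Nat.mul_zero, if_true]
            rw [this]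
            rfl
          | succ j =>
            have e : (if 2 * (j + 1) = 0 then 0 else if 2 * (j + 1) % 2 = 0 then 2 * (j + 1) - 1
              else 2 * (j + 1) + 3) = 2 * j + 1 := by
              rw [if_neg (by omega), if_pos (by omega)]
              omega
            rw [e, mxa_even]
            rw [cns_succ, mxa_even, cnsn_succ]
        · have e : (if 2 * j + 1 = 0 then 0 else if (2 * j + 1) % 2 = 0 then 2 * j + 1 - 1
              else 2 * j + 1 + 3) = (2 * (j + 1) + 1) + 1 := by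
              rw [if_neg (by omega), if_neg (by omega)]
              omega
          rw [e, mxa_odd]
          rw [cns_succ, mxa_odd, if_neg (by omega)]
          congr 1
      rw [ho]
      constructor
      · rintro ⟨n, hn⟩
        refine ⟨nat n, nat_mem_om n, ?_⟩
        rw [key n]
        exact (h1 _).1 hn
      · rintro ⟨x, hx, h2⟩
        obtain ⟨n, rfl⟩ := mem_om.1 hx
        refine ⟨n, (h1 _).2 ?_⟩
        rw [key n] at h2
        exact h2
  | congr _ h ih =>
    obtain ⟨par, hp, R', hR, h1⟩ := ih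
    exact ⟨par, hp, R', hR, fun v => (h v).symm.trans (h1 v)⟩

/-- block DN -/
theorem DN.tab3 {N : Set ZFSet.{0}} (hN : IsZFC N) {R : (ℕ → ℕ) → Prop} (h : DN N R) :
    Tab N fun a b c => R fun i => if i = 0 then a else if i = 1 then b else c := by
  obtain ⟨par, hp, R', hR, h1⟩ := h.dfb hN
  have ho := om_mem hN
  obtain ⟨p, hpN, hp1⟩ := exists_prod hN ho ho
  obtain ⟨q, hqN, hq1⟩ := exists_prod hN hpN ho
  have hd := Dfb.exB hN 1 (.exB hN 2 (.exB hN 3 (.and (dfb_triple hN 3 2 1 0)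
    (hR.ren fun i => if i % 2 = 0 then (if i = 0 then 2 else if i = 2 then 1 else 0)
      else 5 + i / 2))))
  obtain ⟨T, hT, hT1⟩ := hd.sep hN (v := fun i => if i = 0 then om else par (i - 1))
    (fun i => by
      split
      · exact ho
      · exact hp _) hqN
  refine ⟨T, hT, fun z => ?_⟩
  rw [hT1]
  have key : ∀ a b c : ℕ, (fun i => cns (nat c) (cns (nat b) (cns (nat a) (cns z fun i => if i = 0
      then om else par (i - 1)))) (if i % 2 = 0 then (if i = 0 then 2 else if i = 2 then 1 else 0)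
      else 5 + i / 2)) = mxa (fun i => if i = 0 then a else if i = 1 then b else c) par := by
    intro a b c
    funext i
    rcases even_or_odd_two i with ⟨j, rfl⟩ | ⟨j, rfl⟩
    · rw [if_pos (by omega), mxa_even]
      rcases Nat.lt_or_ge j 1 with hj | hj
      · obtain rfl : j = 0 := by omega
        rfl
      · rcases Nat.lt_or_ge j 2 with hj2 | hj2
        · obtain rfl : j = 1 := by omega
          rfl
        · rw [if_neg (by omega), if_neg (by omega), if_neg (by omega), if_neg (by omega)]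
          rfl
    · rw [if_neg (by omega), mxa_odd]
      have : 5 + (2 * j + 1) / 2 = j + 1 + 1 + 1 + 1 + 1 := by omega
      rw [this]
      rfl
  constructor
  · rintro ⟨-, a, ha, b, hb, c, hc, h2, h3⟩
    have ha : a ∈ om := ha
    have hb : b ∈ om := hb
    have hc : c ∈ om := hc
    obtain ⟨a, rfl⟩ := mem_om.1 ha
    obtain ⟨b, rfl⟩ := mem_om.1 hb
    obtain ⟨c, rfl⟩ := mem_om.1 hc
    refine ⟨a, b, c, (h1 _).2 ?_, h2⟩
    rw [key a b c] at h3
    exact h3
  · rintro ⟨a, b, c, h2, rfl⟩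
    refine ⟨(hq1 _).2 ⟨_, (hp1 _).2 ⟨_, nat_mem_om a, _, nat_mem_om b, rfl⟩, _, nat_mem_om c,
      rfl⟩, nat a, nat_mem_om a, nat b, nat_mem_om b, nat c, nat_mem_om c, rfl, ?_⟩
    rw [key a b c]
    exact (h1 _).1 h2

theorem cnsn_ren (n : ℕ) (v : ℕ → ℕ) (f : ℕ → ℕ) :
    cnsn n (fun i => v (f i)) = fun i => cnsn n v (Pool.Agent.Helper89.FV.liftR f i) := by
  funext i
  cases i <;> rfl

theorem DN.ren {N : Set ZFSet.{0}} {R : (ℕ → ℕ) → Prop} (h : DN N R) (f : ℕ → ℕ) :
    DN N fun v => R fun i => v (f i) := by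
  induction h generalizing f with
  | tab h i j k => exact .tab h _ _ _
  | neg _ ih => exact .neg (ih f)
  | and _ _ ih1 ih2 => exact .and (ih1 f) (ih2 f)
  | ex _ ih =>
    refine .congr (.ex (ih (Pool.Agent.Helper89.FV.liftR f))) ?_
    intro v
    simp only [cnsn_ren]
  | congr _ h ih => exact .congr (ih f) fun v => h _

theorem mem_st {x : ℕ → Bool} {z : ZFSet.{0}} : z ∈ st x ↔ ∃ n, x n = true ∧ z = nat n := by
  unfold st
  rw [ZFSet.mem_sep]
  constructor
  · exact fun h => h.2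
  · rintro ⟨n, h1, h2⟩
    exact ⟨h2 ▸ nat_mem_om n, n, h1, h2⟩

theorem st_mem {N : Set ZFSet.{0}} (hN : IsZFC N) {x : ℕ → Bool}
    (h : DN N fun v => x (v 0) = true) : st x ∈ N := by
  obtain ⟨T, hT, h1⟩ := h.tab3 hN
  obtain ⟨b, hb, h2⟩ := sep2 hN (R := fun z p q => ZFSet.pair (ZFSet.pair z q) q ∈ p)
    (dfb_triple_mem hN 1 0 2 2) (om_mem hN) hT (nat_mem hN 0)
  have : b = st x := by
    ext z
    rw [h2, mem_st]
    constructor
    · rintro ⟨hz, h3⟩
      obtain ⟨n, rfl⟩ := mem_om.1 hz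
      exact ⟨n, (tab_mem_iff h1 _ _ _).1 h3, rfl⟩
    · rintro ⟨n, hn, rfl⟩
      exact ⟨nat_mem_om n, (tab_mem_iff h1 _ _ _).2 hn⟩
  exact this ▸ hb

theorem DN.point {N : Set ZFSet.{0}} (hN : IsZFC N) {x : ℕ → Bool} (hx : st x ∈ N) (i : ℕ) :
    DN N fun v => x (v i) = true := by
  have ho := om_mem hN
  obtain ⟨p, hpN, hp1⟩ := exists_prod hN hx ho
  obtain ⟨q, hqN, hq1⟩ := exists_prod hN hpN ho
  have ht : Tab N fun a _ _ => x a = true := by
    refine ⟨q, hqN, fun z => ?_⟩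
    rw [hq1]
    constructor
    · rintro ⟨y, hy, c, hc, rfl⟩
      obtain ⟨a, ha, b, hb, rfl⟩ := (hp1 _).1 hy
      obtain ⟨n, hn, rfl⟩ := mem_st.1 ha
      obtain ⟨b, rfl⟩ := mem_om.1 hb
      obtain ⟨c, rfl⟩ := mem_om.1 hc
      exact ⟨n, b, c, hn, rfl⟩
    · rintro ⟨a, b, c, ha, rfl⟩
      exact ⟨_, (hp1 _).2 ⟨_, mem_st.2 ⟨a, ha, rfl⟩, _, nat_mem_om b, rfl⟩, _, nat_mem_om c, rfl⟩
  exact DN.tab ht i i i

end Pool.Agent.Helper60.MA
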