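import Pool.Agent.Helper36.MA.DN

/-!
# Tables of the ground model and names of sets of natural numbers (blocks TB and ST, helper36)
-/

set_option linter.unusedSectionVars false

namespace Pool.Agent.Helper60.MA

open Pool.Agent.Helper96.Fc
open Pool.Agent.Helper89.FV (nat om Tab nat_zero nat_succ)

section

variable {P : Type} [PartialOrder P] [OrderTop P]

theorem ordN_nat_mem {X : Set (Obj P)} (hc : Clos X) (n : ℕ) :
    (Sum.inl (ordN P (n : Ordinal.{0})) : Obj P) ∈ X := by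
  induction n with
  | zero =>
    rw [Nat.cast_zero]
    exact hc.zero
  | succ n ih =>
    rw [Nat.cast_succ]
    exact hc.succ _ ih

theorem val_ordN_nat {X : Set (Obj P)} {G : Set P} (h : IsFilt X G) (hc : Clos X) (n : ℕ) :
    val X G (ordN P (n : Ordinal.{0})) = nat n := by
  induction n with
  | zero => rw [Nat.cast_zero, nat_zero, val_ordN_zero h]
  | succ n ih => rw [Nat.cast_succ, val_ordN_succ h (ordN_nat_mem hc n), nat_succ, ih]

/-- the name of a table of the ground model -/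
noncomputable def tabN (P : Type) [PartialOrder P] [OrderTop P] (R : ℕ → ℕ → ℕ → Prop) : Nm P :=
  Nm.mk {t : ℕ × ℕ × ℕ // R t.1 t.2.1 t.2.2}
    (fun t => pairN (pairN (ordN P t.1.1) (ordN P t.1.2.1)) (ordN P t.1.2.2)) (fun _ => ⊤)

theorem val_triple {X : Set (Obj P)} {G : Set P} (h : IsFilt X G) (hc : Clos X) (k l m : ℕ) :
    val X G (pairN (pairN (ordN P (k : Ordinal.{0})) (ordN P (l : Ordinal.{0})))
      (ordN P (m : Ordinal.{0}))) = ZFSet.pair (ZFSet.pair (nat k) (nat l)) (nat m) := by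
  rw [val_pairN h hc (hc.pair (ordN_nat_mem hc k) (ordN_nat_mem hc l)) (ordN_nat_mem hc m),
    val_pairN h hc (ordN_nat_mem hc k) (ordN_nat_mem hc l), val_ordN_nat h hc, val_ordN_nat h hc,
    val_ordN_nat h hc]

/-- block TB: tables of the ground model -/
theorem req_tab (R : ℕ → ℕ → ℕ → Prop) : ∃ r : Req P, ∀ X G, Basic X G → Clos X →
    r.Sat X G → Tab (Mod X G) R := by
  refine ⟨⟨Unit, inferInstance, fun _ _ _ => False, fun _ l y => l = [] ∧ y = Sum.inl (tabN P R),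
    fun _ l y z hy hz => hy.2.trans hz.2.symm⟩, fun X G hb hc hs => ?_⟩
  have hX : (Sum.inl (tabN P R) : Obj P) ∈ X := hs.clo () [] _ (by simp) ⟨rfl, rfl⟩
  refine ⟨_, mem_Mod hX, fun z => ?_⟩
  rw [mem_val]
  constructor
  · rintro ⟨⟨⟨k, l, m⟩, ht⟩, -, -, rfl⟩
    exact ⟨k, l, m, ht, val_triple hb.filt hc k l m⟩
  · rintro ⟨k, l, m, ht, rfl⟩
    exact ⟨⟨⟨k, l, m⟩, ht⟩, hb.filt.top, hc.pair (hc.pair (ordN_nat_mem hc k) (ordN_nat_mem hc l))
      (ordN_nat_mem hc m), val_triple hb.filt hc k l m⟩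

/-- the name of a set of natural numbers -/
noncomputable def setN (P : Type) [PartialOrder P] [OrderTop P] (T : ℕ → Set P) : Nm P :=
  Nm.mk {t : ℕ × P // t.2 ∈ T t.1} (fun t => ordN P t.1.1) (fun t => t.1.2)

open Classical in
theorem val_setN {X : Set (Obj P)} {G : Set P} (hb : Basic X G) (hc : Clos X) (T : ℕ → Set P) :
    val X G (setN P T) = st fun k => decide (∃ p ∈ G, p ∈ T k) := by
  ext z
  rw [mem_val, mem_st]
  constructor
  · rintro ⟨⟨⟨k, p⟩, ht⟩, h1, -, rfl⟩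
    exact ⟨k, decide_eq_true ⟨p, h1, ht⟩, val_ordN_nat hb.filt hc k⟩
  · rintro ⟨k, hk, rfl⟩
    obtain ⟨p, hp, ht⟩ := of_decide_eq_true hk
    exact ⟨⟨⟨k, p⟩, ht⟩, hp, ordN_nat_mem hc k, val_ordN_nat hb.filt hc k⟩

end

end Pool.Agent.Helper60.MA
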